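import Pool.Agent.Helper59.CDT.Final

/-!
# Constant depth tests for `k`-SAT: small degree implies multilinear
-/

set_option autoImplicit false

namespace Pool.Agent.Helper59.CDT

open Finset MvPolynomial Pool.SatDet

/-- every assignment violates `n.choose k` clauses -/
theorem card_viol_all {n k : ℕ} (a : Fin n → Bool) [DecidablePred fun C : Clause n k => ¬ Sats a C] :
    (univ.filter fun C : Clause n k => ¬ Sats a C).card = n.choose k := by
  classical
  have h := card_viol (k := k) a (fun _ => True)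
  simp only [and_true, filter_true] at h
  rw [card_powersetCard, card_univ, Fintype.card_fin] at h
  exact h

/-- a monomial of degree at most `n.choose k` which contains all clauses violated by some
assignment is multilinear -/
theorem ml_of_degree {n k : ℕ} (m : Clause n k →₀ ℕ) (hm : SatP n k m.support)
    (hdeg : m.degree ≤ n.choose k) (C : Clause n k) : m C ≤ 1 := by
  classical
  obtain ⟨a, ha⟩ := hm
  by_contra hcon
  push Not at hcon
  have h1 : (univ.filter fun C : Clause n k => ¬ Sats a C) ⊆ m.support := fun C hC =>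
    ha C (mem_filter.1 hC).2
  have h2 : n.choose k ≤ m.support.card := by
    rw [← card_viol_all (k := k) a]
    exact card_le_card h1
  have hC : C ∈ m.support := by
    rw [Finsupp.mem_support_iff]
    omega
  have h3 : m.support.card < ∑ c ∈ m.support, m c := by
    rw [card_eq_sum_ones]
    refine sum_lt_sum (fun c hc => ?_) ⟨C, hC, hcon⟩
    have := Finsupp.mem_support_iff.1 hc
    omega
  have h4 : m.degree = ∑ c ∈ m.support, m c := rfl
  omega

/-- the variables of the clauses of `φ` are set to `0` -/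
noncomputable def onF {n k : ℕ} {F : Type} [Field F] (φ : Finset (Clause n k))
    (f : MvPolynomial (Clause n k) F) : MvPolynomial (Clause n k) F :=
  aeval (fun c => if c ∈ φ then 0 else X c) f

open Classical in
/-- the theorem for polynomials `f ω` which are sums of products -/
theorem cdt_clean (d k : ℕ) (hd : 2 ≤ d) : ∃ C : ℝ, 0 < C ∧
    ∀ (F : Type) [Field F] (Ω : Type) [Fintype Ω] (n S w w0 T : ℕ) (δ : ℝ) (pr : Ω → ℝ)
      (f : Ω → MvPolynomial (Clause n (d + 1)) F),
      2 ≤ S → 1 ≤ w → w ≤ S → 1 ≤ w0 → 1 ≤ T → 0 < δ → δ ≤ 1 → (∀ ω, 0 ≤ pr ω) →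
      ∑ ω, pr ω = 1 →
      (∀ ω, ∃ h : Fin T → Fin S → MvPolynomial (Clause n (d + 1)) F,
        (∀ i j, h i j ∈ Pool.Agent.Helper41.CD.Cls w0 w S k) ∧ f ω = ∑ i, ∏ j, h i j) →
      (∀ ω, (∀ m ∈ (f ω).support, ∀ c, m c ≤ 1) ∨ (f ω).totalDegree ≤ n.choose (d + 1)) →
      (∀ φ : Finset (Clause n (d + 1)), (¬ ∃ a : Fin n → Bool, ∀ c ∈ φ, Sats a c) →
        ∀ ω, onF φ (f ω) = 0) →
      (∀ φ : Finset (Clause n (d + 1)), (∃! a : Fin n → Bool, ∀ c ∈ φ, Sats a c) →
        δ ≤ ∑ ω, if onF φ (f ω) ≠ 0 then pr ω else 0) →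
      n * Real.exp (-(C * (Real.log S ^ (1 - 1 / ((Nat.fib (2 * k + 4) : ℝ) - 1)) *
        Real.log (2 * w) ^ (1 / ((Nat.fib (2 * k + 4) : ℝ) - 1)) + Real.log w0))) ≤
        C * Real.log (2 * T / δ) := by
  obtain ⟨C, hC, H⟩ := cdt d k hd
  refine ⟨C, hC, ?_⟩
  intro F _ Ω _ n S w w₀ T δ p f hS hw hwS hw0 hT hδ hδ1 hp hp1 hf hml hno hyes
  have hrst : ∀ (U : Finset (Clause n (d + 1))) (g : MvPolynomial (Clause n (d + 1)) F),
      rst U g = onF Uᶜ g := by
    intro U g
    unfold rst onF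
    congr 2
    funext c
    by_cases h : c ∈ U
    · rw [if_pos h, if_neg (fun h' => (Finset.mem_compl.1 h') h)]
    · rw [if_neg h, if_pos (Finset.mem_compl.2 h)]
  have hno' : ∀ ω, ∀ U : Finset (Clause n (d + 1)), ¬ SatP n (d + 1) U → rst U (f ω) = 0 := by
    intro ω U hU
    rw [hrst]
    apply hno
    rintro ⟨a, ha⟩
    apply hU
    refine ⟨a, fun c hc => ?_⟩
    by_contra h
    exact hc (ha c (Finset.mem_compl.2 h))
  choose h hh hfh using hf
  have key := H F Ω n T S w w₀ δ p h hT hS hw hwS hw0 hδ hδ1 hp hp1 hh ?_ ?_ ?_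
  · rw [mul_div_assoc]
    exact key
  · intro ω m hm c
    rw [← hfh ω] at hm
    rcases hml ω with h1 | h1
    · exact h1 m hm c
    · exact ml_of_degree m (satP_support (hno' ω) m hm) ((le_totalDegree hm).trans h1) c
  · intro ω U hU
    rw [← hfh ω]
    exact hno' ω U hU
  · intro U hU
    have h1 : ∃! a : Fin n → Bool, ∀ c ∈ Uᶜ, Sats a c := by
      obtain ⟨a, ha, hau⟩ := hU
      refine ⟨a, fun c hc => ha c (Finset.mem_compl.1 hc), fun b hb => hau b fun c hc => ?_⟩
      exact hb c (Finset.mem_compl.2 hc)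
    have h2 := hyes Uᶜ h1
    refine h2.trans (le_of_eq (Finset.sum_congr rfl fun ω _ => ?_))
    rw [← hfh ω, hrst]

end Pool.Agent.Helper59.CDT
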