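import Pool.Agent.Helper87.D3.Series

/-!
# Constant depth tests: the diagonal coefficient matrix
-/

set_option autoImplicit false

namespace Pool.Agent.Helper59.CDT

open Finset MvPolynomial Pool.Agent.Helper87.D3

/-! ### substitutions -/

section sub

variable {E R R' R'' : Type} [CommRing R] [CommRing R'] [CommRing R'']

/-- the ring homomorphism on double power series -/
noncomputable def serMap (φ : R →+* R') : Ser R →+* Ser R' := PowerSeries.map (PowerSeries.map φ)

theorem cf_serMap (φ : R →+* R') (b e : ℕ) (F : Ser R) : cf b e (serMap φ F) = φ (cf b e F) := by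
  simp [cf, serMap]

theorem serMap_cst (φ : R →+* R') (x : R) : serMap φ (cst x) = cst (φ x) := by
  simp [cst, serMap]

theorem serMap_lam (φ : R →+* R') : serMap φ (lam R) = lam R' := by
  simp [lam, serMap]

theorem serMap_mu (φ : R →+* R') : serMap φ (mu R) = mu R' := by
  simp [mu, serMap]

/-- constants as a ring homomorphism -/
noncomputable def cstHom (R : Type) [CommRing R] : R →+* Ser R :=
  (PowerSeries.C (R := PowerSeries R)).comp (PowerSeries.C (R := R))

theorem cstHom_apply (x : R) : cstHom R x = cst x := rfl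

/-- the substitution -/
noncomputable def sub (ψ : R →+* R') (c α β : E → R') : MvPolynomial E R →+* Ser R' :=
  eval₂Hom ((cstHom R').comp ψ) fun e => cst (c e) + lam R' * cst (α e) + mu R' * cst (β e)

theorem serMap_sub (φ : R' →+* R'') (ψ : R →+* R') (c α β : E → R') (f : MvPolynomial E R) :
    serMap φ (sub ψ c α β f) =
      sub (φ.comp ψ) (fun e => φ (c e)) (fun e => φ (α e)) (fun e => φ (β e)) f := by
  have h : (serMap φ).comp (sub ψ c α β) =
      sub (φ.comp ψ) (fun e => φ (c e)) (fun e => φ (α e)) (fun e => φ (β e)) := by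
    apply MvPolynomial.ringHom_ext
    · intro r
      simp only [RingHom.comp_apply, sub, coe_eval₂Hom, eval₂_C, cstHom_apply, serMap_cst]
    · intro e
      simp only [RingHom.comp_apply, sub, coe_eval₂Hom, eval₂_X, map_add, map_mul, serMap_cst,
        serMap_lam, serMap_mu]
  rw [← h]
  rfl

theorem sub_map (θ : R →+* R') (ψ : R' →+* R'') (c α β : E → R'') (f : MvPolynomial E R) :
    sub ψ c α β (map θ f) = sub (ψ.comp θ) c α β f := by
  simp only [sub, coe_eval₂Hom, eval₂_map, RingHom.comp_assoc]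

end sub

/-! ### restriction to a set of variables -/

section rst

variable {E R : Type} [CommRing R] [DecidableEq E]

/-- the variables outside `S` are set to `0` -/
noncomputable def rst (S : Finset E) (f : MvPolynomial E R) : MvPolynomial E R :=
  aeval (fun e => if e ∈ S then X e else 0) f

theorem prod_if (S : Finset E) (m : E →₀ ℕ) :
    (m.prod fun e i => (if e ∈ S then (X e : MvPolynomial E R) else 0) ^ i) =
      if m.support ⊆ S then monomial m 1 else 0 := by
  split_ifs with h
  · rw [monomial_eq, C_1, one_mul]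
    refine Finset.prod_congr rfl fun e he => ?_
    beta_reduce
    rw [if_pos (h he)]
  · obtain ⟨e, he, heS⟩ := Finset.not_subset.1 h
    refine Finset.prod_eq_zero he ?_
    beta_reduce
    rw [if_neg heS, zero_pow (Finsupp.mem_support_iff.1 he)]

theorem rst_eq (S : Finset E) (f : MvPolynomial E R) :
    rst S f = ∑ m ∈ f.support with m.support ⊆ S, monomial m (coeff m f) := by
  rw [rst, aeval_def, eval₂_eq, Finset.sum_filter]
  refine Finset.sum_congr rfl fun m _ => ?_
  have h1 := prod_if (R := R) S m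
  rw [Finsupp.prod] at h1
  have h2 : ∏ i ∈ m.support, (if i ∈ S then (X i : MvPolynomial E R) else 0) ^ m i =
      if m.support ⊆ S then monomial m 1 else 0 := h1
  rw [algebraMap_eq]
  split_ifs at h2 ⊢ with h3
  · rw [h2, C_mul_monomial, mul_one]
  · rw [h2, mul_zero]

end rst

/-! ### the word gadget -/

/-- A gadget for the monotone property `P` of sets of variables. -/
structure WG {E : Type} [DecidableEq E] (P : Finset E → Prop) {N : ℕ} (h : ℕ)
    (tu tv : Fin N → ℕ) where
  /-- the `u` letters of a word -/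
  U : (Fin N → Fin h) → Finset E
  /-- the `v` letters of a word -/
  V : (Fin N → Fin h) → Finset E
  /-- the free variables -/
  Z : Finset E
  cardU : ∀ p, (U p).card = (univ.image tu).card
  cardV : ∀ p, (V p).card = (univ.image tv).card
  locU : ∀ e, ∃ J : Finset ℕ, J ⊆ univ.image tu ∧ J.card ≤ 1 ∧
    ∀ p p', (∀ i, tu i ∈ J → p i = p' i) → (e ∈ U p ↔ e ∈ U p')
  locV : ∀ e, ∃ J : Finset ℕ, J ⊆ univ.image tv ∧ J.card ≤ 1 ∧
    ∀ p p', (∀ i, tv i ∈ J → p i = p' i) → (e ∈ V p ↔ e ∈ V p')
  disjZU : ∀ p, Disjoint Z (U p)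
  disjZV : ∀ p, Disjoint Z (V p)
  disjUV : ∀ p p', Disjoint (U p) (V p')
  main : ∀ p p' S, P S → S ⊆ Z ∪ U p ∪ V p' → p' = p ∧ U p ⊆ S ∧ V p ⊆ S

section coef

variable {E R : Type} [CommRing R] [DecidableEq E] {P : Finset E → Prop} {N h : ℕ}
  {tu tv : Fin N → ℕ}

/-- the substituted series of a variable -/
noncomputable def WG.xs (G : WG P h tu tv) (R : Type) [CommRing R] (p p' : Fin N → Fin h) (e : E) :
    Ser (MvPolynomial E R) :=
  cst (if e ∈ G.Z then X e else 0) + lam _ * cst (if e ∈ G.U p then 1 else 0) +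
    mu _ * cst (if e ∈ G.V p' then 1 else 0)

variable (G : WG P h tu tv)

theorem WG.xs_Z (p p' : Fin N → Fin h) {e : E} (he : e ∈ G.Z) :
    G.xs R p p' e = cst (X e) := by
  have h1 : e ∉ G.U p := Finset.disjoint_left.1 (G.disjZU p) he
  have h2 : e ∉ G.V p' := Finset.disjoint_left.1 (G.disjZV p') he
  rw [WG.xs, if_pos he, if_neg h1, if_neg h2, cst_zero, mul_zero, mul_zero, add_zero, add_zero]

theorem WG.xs_U (p p' : Fin N → Fin h) {e : E} (he : e ∈ G.U p) :
    G.xs R p p' e = lam _ := by
  have h1 : e ∉ G.Z := Finset.disjoint_right.1 (G.disjZU p) he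
  have h2 : e ∉ G.V p' := Finset.disjoint_left.1 (G.disjUV p p') he
  rw [WG.xs, if_pos he, if_neg h1, if_neg h2, cst_zero, cst_one, mul_zero, mul_one, add_zero,
    zero_add]

theorem WG.xs_V (p p' : Fin N → Fin h) {e : E} (he : e ∈ G.V p') :
    G.xs R p p' e = mu _ := by
  have h1 : e ∉ G.Z := Finset.disjoint_right.1 (G.disjZV p') he
  have h2 : e ∉ G.U p := Finset.disjoint_right.1 (G.disjUV p p') he
  rw [WG.xs, if_pos he, if_neg h1, if_neg h2, cst_zero, cst_one, mul_zero, mul_one, zero_add,
    zero_add]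

theorem WG.xs_none (p p' : Fin N → Fin h) {e : E} (he : e ∉ G.Z ∪ G.U p ∪ G.V p') :
    G.xs R p p' e = 0 := by
  simp only [mem_union, not_or] at he
  rw [WG.xs, if_neg he.1.1, if_neg he.1.2, if_neg he.2, cst_zero, mul_zero, mul_zero, add_zero,
    add_zero]

omit [DecidableEq E] in
/-- a multilinear monomial -/
theorem prod_ml {M : Type} [CommMonoid M] (m : E →₀ ℕ) (hm : ∀ e, m e ≤ 1) (g : E → M) :
    ∏ e ∈ m.support, g e ^ m e = ∏ e ∈ m.support, g e := by
  refine Finset.prod_congr rfl fun e he => ?_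
  have h1 : m e ≠ 0 := Finsupp.mem_support_iff.1 he
  have h2 := hm e
  rw [show m e = 1 by omega, pow_one]

theorem WG.prod_split {M : Type} [CommMonoid M] (p : Fin N → Fin h) {s : Finset E}
    (h1 : s ⊆ G.Z ∪ G.U p ∪ G.V p) (h2 : G.U p ⊆ s) (h3 : G.V p ⊆ s) (g : E → M) :
    ∏ e ∈ s, g e = (∏ e ∈ s ∩ G.Z, g e) * (∏ e ∈ G.U p, g e) * ∏ e ∈ G.V p, g e := by
  have h4 : s = (s ∩ G.Z ∪ G.U p) ∪ G.V p := by
    ext e
    simp only [mem_union, mem_inter]
    constructor
    · intro he
      have := h1 he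
      simp only [mem_union] at this
      tauto
    · rintro ((⟨he, -⟩ | he) | he)
      · exact he
      · exact h2 he
      · exact h3 he
  have d1 : Disjoint (s ∩ G.Z) (G.U p) :=
    Finset.disjoint_of_subset_left inter_subset_right (G.disjZU p)
  have d2 : Disjoint (s ∩ G.Z ∪ G.U p) (G.V p) := by
    rw [Finset.disjoint_union_left]
    exact ⟨Finset.disjoint_of_subset_left inter_subset_right (G.disjZV p), G.disjUV p p⟩
  conv_lhs => rw [h4]
  rw [Finset.prod_union d2, Finset.prod_union d1]

variable (f : MvPolynomial E R)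

/-- the coefficient is zero off the diagonal -/
theorem WG.coef_off (hP : ∀ m ∈ f.support, P m.support) {p p' : Fin N → Fin h} (hne : p' ≠ p) :
    sub (C : R →+* MvPolynomial E R) (fun e => if e ∈ G.Z then X e else 0)
      (fun e => if e ∈ G.U p then 1 else 0) (fun e => if e ∈ G.V p' then 1 else 0) f = 0 := by
  rw [sub, coe_eval₂Hom, eval₂_eq]
  refine Finset.sum_eq_zero fun m hm => ?_
  have h1 : ¬ m.support ⊆ G.Z ∪ G.U p ∪ G.V p' := fun h1 => hne (G.main p p' _ (hP m hm) h1).1
  obtain ⟨e, he, heS⟩ := Finset.not_subset.1 h1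
  have h2 := G.xs_none (R := R) p p' heS
  rw [WG.xs] at h2
  have h3 : (∏ i ∈ m.support, (cst (if i ∈ G.Z then (X i : MvPolynomial E R) else 0) +
      lam _ * cst (if i ∈ G.U p then 1 else 0) + mu _ * cst (if i ∈ G.V p' then 1 else 0)) ^ m i)
      = 0 := by
    refine Finset.prod_eq_zero he ?_
    rw [h2, zero_pow (Finsupp.mem_support_iff.1 he)]
  rw [h3, mul_zero]

/-- the coefficient on the diagonal -/
theorem WG.coef_diag (hml : ∀ m ∈ f.support, ∀ e, m e ≤ 1) (hP : ∀ m ∈ f.support, P m.support)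
    (p : Fin N → Fin h) :
    cf (univ.image tu).card (univ.image tv).card
      (sub (C : R →+* MvPolynomial E R) (fun e => if e ∈ G.Z then X e else 0)
      (fun e => if e ∈ G.U p then 1 else 0) (fun e => if e ∈ G.V p then 1 else 0) f) *
      (∏ e ∈ G.U p, X e) * (∏ e ∈ G.V p, X e) = rst (G.Z ∪ G.U p ∪ G.V p) f := by
  rw [sub, coe_eval₂Hom, eval₂_eq, cf_sum, sum_mul, sum_mul, rst_eq, Finset.sum_filter]
  refine Finset.sum_congr rfl fun m hm => ?_
  have h0 : (∏ i ∈ m.support, (cst (if i ∈ G.Z then (X i : MvPolynomial E R) else 0) +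
      lam _ * cst (if i ∈ G.U p then 1 else 0) + mu _ * cst (if i ∈ G.V p then 1 else 0)) ^ m i)
      = ∏ i ∈ m.support, G.xs R p p i ^ m i := rfl
  rw [h0]
  split_ifs with h1
  · obtain ⟨-, h2, h3⟩ := G.main p p _ (hP m hm) h1
    rw [prod_ml m (hml m hm), G.prod_split p h1 h2 h3]
    have e1 : ∏ e ∈ m.support ∩ G.Z, G.xs R p p e = cst (∏ e ∈ m.support ∩ G.Z, X e) := by
      rw [← cstHom_apply, map_prod]
      refine Finset.prod_congr rfl fun e he => ?_
      rw [G.xs_Z p p (Finset.mem_inter.1 he).2, cstHom_apply]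
    have e2 : ∏ e ∈ G.U p, G.xs R p p e = lam _ ^ (univ.image tu).card := by
      rw [Finset.prod_congr rfl fun e he => G.xs_U p p he, Finset.prod_const, G.cardU]
    have e3 : ∏ e ∈ G.V p, G.xs R p p e = mu _ ^ (univ.image tv).card := by
      rw [Finset.prod_congr rfl fun e he => G.xs_V p p he, Finset.prod_const, G.cardV]
    rw [e1, e2, e3, RingHom.comp_apply, cstHom_apply]
    rw [cf_cst_mul, show cst (∏ e ∈ m.support ∩ G.Z, X e) * lam _ ^ (univ.image tu).card *
      mu _ ^ (univ.image tv).card = lam _ ^ (univ.image tu).card *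
      mu _ ^ (univ.image tv).card * cst (∏ e ∈ m.support ∩ G.Z, (X e : MvPolynomial E R)) by ring,
      cf_lam_pow_mul, if_pos ⟨rfl, rfl⟩]
    have e4 : (monomial m (coeff m f) : MvPolynomial E R) =
        C (coeff m f) * ∏ e ∈ m.support, X e := by
      rw [monomial_eq, Finsupp.prod, prod_ml m (hml m hm)]
    rw [e4, G.prod_split p h1 h2 h3]
    ring
  · obtain ⟨e, he, heS⟩ := Finset.not_subset.1 h1
    rw [Finset.prod_eq_zero he, mul_zero, cf_zero, zero_mul, zero_mul]
    rw [G.xs_none p p heS, zero_pow (Finsupp.mem_support_iff.1 he)]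

end coef

end Pool.Agent.Helper59.CDT
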