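import Pool.Agent.Helper59.CDT.Coef
import Pool.Agent.CDep.Plug
import Pool.Agent.CDep.Lift

/-!
# Constant depth tests: counting the words whose formula is accepted
-/

set_option autoImplicit false

namespace Pool.Agent.Helper59.CDT

open Finset MvPolynomial Pool.Agent.Helper87.D3 Pool.CDep Pool.CD Pool.Agent.Helper41.CD

/-- the substitution of the machine as a `sub` -/
theorem phiW_eq {K : Type} [Field K] {N h : ℕ} {σ : Type} (c : σ → K) (a b : σ → Wo N h → K)
    (F : MvPolynomial σ K) :
    PhiW c a b F = sub (algebraMap K (Fw K N h)) (fun e => algebraMap K (Fw K N h) (c e))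
      (fun e p => a e p.1) (fun e p => b e p.2) F := by
  unfold PhiW sub
  rw [aeval_def, coe_eval₂Hom]
  congr 1
  ext x : 1
  rw [Pool.Agent.Helper59.CD.algebraMap_ser]
  rfl

/-- the values of the substitution of the machine -/
theorem phiW_apply {K R : Type} [Field K] [CommRing R] (ι : R →+* K) {N h : ℕ} {σ : Type}
    (c : σ → R) (a b : σ → Wo N h → R) (F : MvPolynomial σ R) (r E : ℕ) (p p' : Wo N h) :
    cf r E (PhiW (fun e => ι (c e)) (fun e q => ι (a e q)) (fun e q => ι (b e q)) (map ι F))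
      (p, p') = ι (cf r E (sub (RingHom.id R) c (fun e => a e p) (fun e => b e p') F)) := by
  rw [phiW_eq]
  have h1 := cf_serMap (Pi.evalRingHom (fun _ : Wo N h × Wo N h => K) (p, p')) r E
    (sub (algebraMap K (Fw K N h)) (fun e => algebraMap K (Fw K N h) (ι (c e)))
      (fun e (q : Wo N h × Wo N h) => ι (a e q.1)) (fun e q => ι (b e q.2)) (map ι F))
  rw [serMap_sub, sub_map] at h1
  have h2 : ((Pi.evalRingHom (fun _ : Wo N h × Wo N h => K) (p, p')).comp
      (algebraMap K (Fw K N h))).comp ι = ι := by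
    ext x : 1
    rfl
  rw [h2] at h1
  have h3 := cf_serMap ι r E (sub (RingHom.id R) c (fun e => a e p) (fun e => b e p') F)
  rw [serMap_sub, RingHom.comp_id] at h3
  rw [← h3]
  exact h1.symm

/-- restriction of a function on pairs -/
theorem rankLe_restrict {K X Y X' Y' : Type} [Field K] {N : ℕ} {f : X × Y → K}
    (hf : RankLe N f) (u : X' → X) (v : Y' → Y) :
    RankLe N (fun q : X' × Y' => f (u q.1, v q.2)) := by
  obtain ⟨a, b, rfl⟩ := hf
  exact ⟨fun i x => a i (u x), fun i y => b i (v y), rfl⟩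

/-- the coefficient ring over which everything is lifted -/
abbrev R1 (E F : Type) : Type := MvPolynomial E (LRing F)

/-- the field of the upper bound -/
abbrev K1 (E F : Type) : Type := FractionRing (R1 E F)

instance (E F : Type) : CharZero (K1 E F) :=
  charZero_of_injective_algebraMap (IsFractionRing.injective (R1 E F) (K1 E F))

/-- **the number of words whose formula is accepted** -/
theorem count_words {E F : Type} [DecidableEq E] [Field F] {P : Finset E → Prop} {N h : ℕ}
    {tu tv : Fin N → ℕ} (G : WG P h tu tv) {w0 w S k A B T : ℕ} (hw0 : 1 ≤ w0) (hw : 1 ≤ w)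
    (hh : 1 ≤ h) {X' Y' : ℕ → ℝ}
    (hG : Grw w0 w S ((h : ℝ) ^ A) ((h : ℝ) ^ B) (2 * k + 1) X' Y')
    (hA : ∀ t, (univ.filter fun d => tu d = t).card ≤ A)
    (hB : ∀ t, (univ.filter fun d => tv d = t).card ≤ B)
    (f : Fin T → Fin S → MvPolynomial E F) (hf : ∀ i j, f i j ∈ Cls w0 w S k)
    (hml : ∀ m ∈ (∑ i, ∏ j, f i j).support, ∀ e, m e ≤ 1)
    (hP : ∀ m ∈ (∑ i, ∏ j, f i j).support, P m.support)
    (W : Finset (Wo N h)) (hW : ∀ p ∈ W, rst (G.Z ∪ G.U p ∪ G.V p) (∑ i, ∏ j, f i j) ≠ 0) :
    (W.card : ℝ) ≤ 2 ^ ((univ.image tu).card + (univ.image tv).card) *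
      (T * (4 ^ ((univ.image tu).card + (univ.image tv).card) *
        X' (2 * k + 1) ^ (univ.image tu).card * Y' (2 * k + 1) ^ (univ.image tv).card)) := by
  classical
  set g : MvPolynomial E F := ∑ i, ∏ j, f i j with hg
  set r := (univ.image tu).card with hr
  set E' := (univ.image tv).card with hE'
  -- the lift
  set π : R1 E F →+* MvPolynomial E F := MvPolynomial.map (proj F) with hπ
  have hπs : Function.Surjective π := map_surjective _ (proj_surjective F)
  have h1 : ∀ i j, ∃ q : MvPolynomial E (R1 E F), q ∈ Cls w0 w S k ∧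
      MvPolynomial.map π q = MvPolynomial.map (C : F →+* MvPolynomial E F) (f i j) := fun i j =>
    cls_lift π hπs k (cls_map _ k (hf i j))
  choose q hq hqf using h1
  set g' : MvPolynomial E (R1 E F) := ∑ i, ∏ j, q i j with hg'
  have hgg : MvPolynomial.map π g' = MvPolynomial.map (C : F →+* MvPolynomial E F) g := by
    simp only [hg, hg', map_sum, map_prod, hqf]
  set ι : R1 E F →+* K1 E F := algebraMap (R1 E F) (K1 E F) with hι
  have hιi : Function.Injective ι := IsFractionRing.injective (R1 E F) (K1 E F)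
  have hq' : ∀ i j, MvPolynomial.map ι (q i j) ∈ Cls w0 w S k := fun i j => cls_map _ k (hq i j)
  have hsum : (∑ i, ∏ j, MvPolynomial.map ι (q i j)) = MvPolynomial.map ι g' := by
    simp only [hg', map_sum, map_prod]
  -- the data
  set c : E → R1 E F := fun e => if e ∈ G.Z then X e else 0 with hc
  set a : E → Wo N h → R1 E F := fun e p => if e ∈ G.U p then 1 else 0 with ha
  set b : E → Wo N h → R1 E F := fun e p => if e ∈ G.V p then 1 else 0 with hb
  have hNu := machine_words (K := K1 E F) (h := h) (lu := tu) (lv := tv) (w0 := w0) (w := w)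
    (S := S) (k := k) hw0 hw (HU := (h : ℝ) ^ A) (HV := (h : ℝ) ^ B) (by positivity)
    (by positivity) hG (fun e => ι (c e)) (fun e p => ι (a e p)) (fun e p => ι (b e p))
    (fun e => by
      obtain ⟨J, h1, h2, h3⟩ := G.locU e
      refine ⟨J, h1, h2, fun p p' hp => ?_⟩
      simp only [ha, h3 p p' hp])
    (fun e => by
      obtain ⟨J, h1, h2, h3⟩ := G.locV e
      refine ⟨J, h1, h2, fun p p' hp => ?_⟩
      simp only [hb, h3 p p' hp])
    T (fun i j => MvPolynomial.map ι (q i j)) hq' r E'
  rw [hsum] at hNu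
  set Φ : Fw (K1 E F) N h := cf r E' (PhiW (fun e => ι (c e)) (fun e p => ι (a e p))
    (fun e p => ι (b e p)) (MvPolynomial.map ι g')) with hΦ
  set κ : ℝ := T * (4 ^ (r + E') * X' (2 * k + 1) ^ r * Y' (2 * k + 1) ^ E') with hκ
  have h0v : (0 : ℝ) ≤ (h : ℝ) ^ B := by positivity
  have h0u : (0 : ℝ) ≤ (h : ℝ) ^ A := by positivity
  have h2 : RankLe (⌊(((2 ^ E' : ℕ) : ℝ) * ((2 ^ r : ℕ) : ℝ)) * κ⌋₊) Φ := by
    refine Nu.rank (cV := 2 ^ E') (cU := 2 ^ r) ?_ ?_ h0v hNu (Nat.lt_floor_add_one _)
    · intro x g hg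
      refine ⟨_, le_of_eq ?_, rank_WV hh hB hg⟩
      push_cast
      rfl
    · intro x g hg
      refine ⟨_, le_of_eq ?_, rank_WU hh hA hg⟩
      push_cast
      rfl
  -- the matrix
  set M' : Matrix W W (R1 E F) := Matrix.of fun p p' =>
    cf r E' (sub (RingHom.id _) c (fun e => a e p.1) (fun e => b e p'.1) g') with hM'
  set D : W → MvPolynomial E F := fun p =>
    cf r E' (sub (C : F →+* MvPolynomial E F) (fun e => if e ∈ G.Z then X e else 0)
      (fun e => if e ∈ G.U p.1 then 1 else 0) (fun e => if e ∈ G.V p.1 then 1 else 0) g) with hD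
  have hMπ : π.mapMatrix M' = Matrix.diagonal D := by
    ext1 p p'
    rw [RingHom.mapMatrix_apply, Matrix.map_apply, hM', Matrix.of_apply]
    have e1 := cf_serMap π r E'
      (sub (RingHom.id _) c (fun e => a e p.1) (fun e => b e p'.1) g')
    rw [serMap_sub, RingHom.comp_id] at e1
    have e2 := sub_map π (RingHom.id (MvPolynomial E F)) (fun e => π (c e))
      (fun e => π (a e p.1)) (fun e => π (b e p'.1)) g'
    rw [RingHom.id_comp] at e2
    rw [← e2, hgg, sub_map, RingHom.id_comp] at e1
    rw [← e1]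
    have e3 : (fun e => π (c e)) = fun e => if e ∈ G.Z then X e else 0 := by
      funext e
      simp only [hc]
      split_ifs
      · rw [hπ, map_X]
      · rw [map_zero]
    have e4 : (fun e => π (a e p.1)) = fun e => if e ∈ G.U p.1 then 1 else 0 := by
      funext e
      simp only [ha]
      split_ifs
      · rw [map_one]
      · rw [map_zero]
    have e5 : (fun e => π (b e p'.1)) = fun e => if e ∈ G.V p'.1 then 1 else 0 := by
      funext e
      simp only [hb]
      split_ifs
      · rw [map_one]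
      · rw [map_zero]
    rw [e3, e4, e5]
    by_cases hpp : p = p'
    · subst hpp
      rw [Matrix.diagonal_apply_eq]
    · rw [Matrix.diagonal_apply_ne _ hpp]
      have hne : p'.1 ≠ p.1 := fun h => hpp (Subtype.ext h.symm)
      rw [G.coef_off g hP hne, cf_zero]
  have hD0 : ∀ p, D p ≠ 0 := by
    intro p h0
    apply hW p.1 p.2
    rw [← G.coef_diag g hml hP p.1]
    have : cf (univ.image tu).card (univ.image tv).card
        (sub (C : F →+* MvPolynomial E F) (fun e => if e ∈ G.Z then X e else 0)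
        (fun e => if e ∈ G.U p.1 then 1 else 0) (fun e => if e ∈ G.V p.1 then 1 else 0) g) = 0 :=
      h0
    rw [this, zero_mul, zero_mul]
  have hdet' : M'.det ≠ 0 := by
    intro h0
    have e1 : π M'.det = (π.mapMatrix M').det := RingHom.map_det π M'
    rw [h0, map_zero, hMπ, Matrix.det_diagonal] at e1
    exact Finset.prod_ne_zero_iff.2 (fun p _ => hD0 p) e1.symm
  have hdet : (Matrix.of fun p p' : W => Φ (p.1, p'.1)).det ≠ 0 := by
    have e1 : (Matrix.of fun p p' : W => Φ (p.1, p'.1)) = ι.mapMatrix M' := by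
      ext1 p p'
      rw [RingHom.mapMatrix_apply, Matrix.map_apply, hM', Matrix.of_apply, Matrix.of_apply, hΦ]
      exact phiW_apply ι c a b g' r E' p.1 p'.1
    rw [e1, ← RingHom.map_det]
    intro h0
    apply hdet'
    apply hιi
    rw [h0, map_zero]
  have h3 := card_le_of_rankLe (rankLe_restrict h2 (fun p : W => p.1) (fun p : W => p.1)) hdet
  rw [Fintype.card_coe] at h3
  have hκ0 : 0 ≤ κ := Nu.nonneg h0v h0u hNu
  have h4 : (W.card : ℝ) ≤ (((2 ^ E' : ℕ) : ℝ) * ((2 ^ r : ℕ) : ℝ)) * κ :=
    (Nat.cast_le.2 h3).trans (Nat.floor_le (by positivity))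
  refine h4.trans (le_of_eq ?_)
  push_cast
  rw [pow_add 2 r]
  ring

end Pool.Agent.Helper59.CDT
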