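import Pool.Agent.Helper59.CDT.Gad
import Pool.Agent.Helper59.CDT.Coef
import Pool.Agent.Helper59.SAT.Inst

/-!
# Constant depth tests for `k`-SAT: the gadget as a `WG`
-/

set_option autoImplicit false

namespace Pool.Agent.Helper59.CDT

open Finset Pool.SatDet

section inst

variable {N h R n d : ℕ} {lab : Bool → Fin N → ℕ}

/-- the gadget -/
noncomputable def wgSat (ε : Gw lab h R ≃ Fin n) {P0 : Finset (Fin R)} (hP0 : P0.card = d)
    (hd : 2 ≤ d) (hh : 1 ≤ h) (hk : d + 1 ≤ Fintype.card (Gw lab h R)) :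
    WG (SatP n (d + 1)) h (lab false) (lab true) where
  U := Us ε hP0 false
  V := Us ε hP0 true
  Z := Zs ε hP0
  cardU := card_Us ε hP0 false
  cardV := card_Us ε hP0 true
  locU := Us_local ε hP0 false
  locV := Us_local ε hP0 true
  disjZU := disj_Z ε hP0 false
  disjZV := disj_Z ε hP0 true
  disjUV := disj_UV ε hP0
  main := by
    intro p p' S hP hS
    obtain ⟨a, ha⟩ := hP
    have h1 := sat_words ε hP0 hd hh hk (fun s => if s then p' else p) S (fun C hC => by
      have h2 := hS hC
      simp only [mem_union] at h2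
      rcases h2 with (h2 | h2) | h2
      · exact Or.inl h2
      · exact Or.inr ⟨false, by simpa using h2⟩
      · exact Or.inr ⟨true, by simpa using h2⟩) a ha
    obtain ⟨h3, -, h4⟩ := h1
    have h5 : p' = p := by simpa using h3
    refine ⟨h5, by simpa using h4 false, ?_⟩
    have h6 := h4 true
    simp only [if_true] at h6
    rwa [h5] at h6

/-- the formula of a word has exactly one satisfying assignment -/
theorem wgSat_unique (ε : Gw lab h R ≃ Fin n) {P0 : Finset (Fin R)} (hP0 : P0.card = d)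
    (hd : 2 ≤ d) (hh : 1 ≤ h) (hk : d + 1 ≤ Fintype.card (Gw lab h R)) (p : Fin N → Fin h) :
    ∃! a : Fin n → Bool, ∀ C : Clause n (d + 1), C ∉ (wgSat ε hP0 hd hh hk).Z ∪
      (wgSat ε hP0 hd hh hk).U p ∪ (wgSat ε hP0 hd hh hk).V p → Sats a C := by
  classical
  refine ⟨ac ε p, fun C hC => ?_, fun a ha => ?_⟩
  · by_contra hcon
    apply hC
    rcases viol_ac ε hP0 p C hcon with h1 | ⟨s, h1⟩
    · simp only [wgSat, mem_union]
      exact Or.inl (Or.inl h1)
    · cases s
      · simp only [wgSat, mem_union]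
        exact Or.inl (Or.inr h1)
      · simp only [wgSat, mem_union]
        exact Or.inr h1
  · have h1 := sat_words ε hP0 hd hh hk (fun _ => p) (univ.filter fun C => ¬ Sats a C)
      (fun C hC => by
        have h2 := (mem_filter.1 hC).2
        have h3 : C ∈ (wgSat ε hP0 hd hh hk).Z ∪ (wgSat ε hP0 hd hh hk).U p ∪
            (wgSat ε hP0 hd hh hk).V p := by
          by_contra h3
          exact h2 (ha C h3)
        simp only [wgSat, mem_union] at h3
        rcases h3 with (h3 | h3) | h3
        · exact Or.inl h3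
        · exact Or.inr ⟨false, h3⟩
        · exact Or.inr ⟨true, h3⟩) a (fun C hC => mem_filter.2 ⟨mem_univ _, hC⟩)
    exact h1.2.1

/-- **the gadget exists** for all large numbers of variables -/
theorem exists_wgSat {N h n d : ℕ} (tu tv : Fin N → ℕ) {A B : ℕ} (hd : 2 ≤ d) (hh : 1 ≤ h)
    (hA : ∀ j, (univ.filter fun i => tu i = j).card ≤ A)
    (hB : ∀ j, (univ.filter fun i => tv i = j).card ≤ B) (hN : 1 ≤ N)
    (hn : 2 * ((univ.image tu).card * h ^ A + (univ.image tv).card * h ^ B) + d ≤ n) :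
    ∃ G : WG (SatP n (d + 1)) h tu tv, ∀ p, ∃! a : Fin n → Bool, ∀ C : Clause n (d + 1),
      C ∉ G.Z ∪ G.U p ∪ G.V p → Sats a C := by
  classical
  set lab : Bool → Fin N → ℕ := fun s => if s then tv else tu with hlab
  have e1 : lab false = tu := by simp [hlab]
  have e2 : lab true = tv := by simp [hlab]
  have hcard : Fintype.card (Lt lab h) ≤ (univ.image tu).card * h ^ A +
      (univ.image tv).card * h ^ B := by
    have := card_Lt_le (lab := lab) A B hh (by rw [e1]; exact hA) (by rw [e2]; exact hB)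
    rwa [e1, e2] at this
  obtain ⟨R, hR⟩ : ∃ R, 2 * Fintype.card (Lt lab h) + R = n :=
    ⟨n - 2 * Fintype.card (Lt lab h), by omega⟩
  have hdR : d ≤ R := by omega
  have hc : Fintype.card (Gw lab h R) = n := by
    rw [Fintype.card_sum, Fintype.card_prod, Fintype.card_bool, Fintype.card_fin]
    omega
  obtain ⟨ε⟩ : Nonempty (Gw lab h R ≃ Fin n) :=
    ⟨Fintype.equivOfCardEq (by rw [hc, Fintype.card_fin])⟩
  obtain ⟨P0, -, hP0⟩ := Finset.exists_subset_card_eq (s := (Finset.univ : Finset (Fin R)))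
    (n := d) (by rw [Finset.card_univ, Fintype.card_fin]; exact hdR)
  have hL1 : 1 ≤ Fintype.card (Lt lab h) := by
    have : Nonempty (Lt lab h) :=
      ⟨⟨⟨false, ⟨lab false ⟨0, hN⟩, mem_image_of_mem _ (mem_univ _)⟩⟩, fun _ => ⟨0, hh⟩⟩⟩
    exact Fintype.card_pos
  have hk : d + 1 ≤ Fintype.card (Gw lab h R) := by omega
  rw [← e1, ← e2]
  exact ⟨wgSat ε hP0 hd hh hk, wgSat_unique ε hP0 hd hh hk⟩

end inst

end Pool.Agent.Helper59.CDT
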