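import Pool.Agent.CDep.FinalNum
import Pool.Agent.CDep.Machine
import Pool.Agent.CDep.Params
import Pool.Agent.Helper98.CD.Numbers

/-!
# Constant depth tests: numbers
-/

set_option autoImplicit false

namespace Pool.Agent.Helper59.CDT

open Finset Pool.CD Pool.CDep

/-- from the rank inequality to the number of summands, real form -/
theorem count_final' {A B r E N : ℕ} {c τ : ℝ} (hτ : 0 ≤ τ) (hc : 4 ≤ c) (hA : A * r = N)
    (hB : B * E = N)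
    (h : (2 : ℝ) ^ N ≤ 2 ^ (r + E) * (τ * 4 ^ (r + E) * ((2 : ℝ) ^ ((A : ℝ) / 2 - c)) ^ r *
      ((2 : ℝ) ^ ((B : ℝ) / 2 - c)) ^ E)) : (2 : ℝ) ^ (r + E) ≤ τ := by
  have hA' : (A : ℝ) * r = N := by exact_mod_cast hA
  have hB' : (B : ℝ) * E = N := by exact_mod_cast hB
  have h1 : (2 : ℝ) ^ (r + E) * (τ * 4 ^ (r + E) * ((2 : ℝ) ^ ((A : ℝ) / 2 - c)) ^ r *
      ((2 : ℝ) ^ ((B : ℝ) / 2 - c)) ^ E) =
      τ * (2 : ℝ) ^ ((N : ℝ) + (3 - c) * (r + E)) := by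
    have e1 : (2 : ℝ) ^ (r + E) * (τ * 4 ^ (r + E) * ((2 : ℝ) ^ ((A : ℝ) / 2 - c)) ^ r *
      ((2 : ℝ) ^ ((B : ℝ) / 2 - c)) ^ E) = τ * (((2 : ℝ) ^ (3 : ℕ)) ^ (r + E) *
        (((2 : ℝ) ^ ((A : ℝ) / 2 - c)) ^ r * ((2 : ℝ) ^ ((B : ℝ) / 2 - c)) ^ E)) := by
      have : ((2 : ℝ) ^ (3 : ℕ)) ^ (r + E) = 2 ^ (r + E) * 4 ^ (r + E) := by
        rw [← mul_pow]; norm_num
      rw [this]
      ring
    rw [e1, two_rpow_mul]
    have e2 : ((2 : ℝ) ^ (3 : ℕ)) ^ (r + E) = (2 : ℝ) ^ ((3 : ℝ) * (r + E)) := by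
      rw [← pow_mul, ← Real.rpow_natCast]
      congr 1
      push_cast
      ring
    rw [e2, ← Real.rpow_add (by norm_num)]
    congr 2
    linarith
  rw [h1, Real.rpow_add (by norm_num), Real.rpow_natCast] at h
  have h2 : (0 : ℝ) < 2 ^ N := by positivity
  have h3 : (2 : ℝ) ^ N * 1 ≤ 2 ^ N * (τ * (2 : ℝ) ^ ((3 - c) * (r + E))) := by
    calc (2 : ℝ) ^ N * 1 = 2 ^ N := mul_one _
      _ ≤ τ * (2 ^ N * (2 : ℝ) ^ ((3 - c) * (r + E))) := h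
      _ = _ := by ring
  have h4 := le_of_mul_le_mul_left h3 h2
  have h5 : (2 : ℝ) ^ ((3 - c) * (r + E)) ≤ (2 : ℝ) ^ (-((r : ℝ) + E)) := by
    apply Real.rpow_le_rpow_of_exponent_le (by norm_num)
    have : (0 : ℝ) ≤ (r : ℝ) + E := by positivity
    nlinarith
  have h6 : 1 ≤ τ * (2 : ℝ) ^ (-((r : ℝ) + E)) := by
    refine h4.trans (mul_le_mul_of_nonneg_left h5 hτ)
  rw [Real.rpow_neg (by norm_num), ← div_eq_mul_inv, le_div_iff₀ (Real.rpow_pos_of_pos (by norm_num) _),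
    one_mul] at h6
  have h7 : (2 : ℝ) ^ ((r : ℝ) + E) = 2 ^ (r + E) := by
    rw [← Nat.cast_add, Real.rpow_natCast]
  rwa [h7] at h6

/-- the final real inequality -/
theorem log_final' {n d A : ℕ} {C' G τ : ℝ} (hC' : 0 < C') (hG : 0 ≤ G)
    (hA : (A : ℝ) ≤ C' * G) (hτ : 1 ≤ τ)
    (hT : (2 : ℝ) ^ ((n - d) / 2 ^ (2 * A + 4)) ≤ τ) :
    n * Real.exp (-((48 + 4 * C' + 4 * d) * G)) ≤ (48 + 4 * C' + 4 * d) * Real.log (2 * τ) := by
  set D : ℝ := 24 + 2 * C' with hD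
  set C : ℝ := 48 + 4 * C' + 4 * d with hC
  have hd0 : (0 : ℝ) ≤ d := Nat.cast_nonneg d
  have hCD : C = 2 * D + 4 * d := by rw [hC, hD]; ring
  have hD24 : 24 ≤ D := by linarith
  have hDC : 2 * C' ≤ D := by linarith
  have hl2 : (0.6931 : ℝ) < Real.log 2 := by
    have := Real.log_two_gt_d9
    linarith
  have hl2' : Real.log 2 < 0.6932 := by
    have := Real.log_two_lt_d9
    linarith
  have hlog0 : Real.log 2 ≤ Real.log (2 * τ) := Real.log_le_log (by norm_num) (by linarith)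
  have hexp : Real.exp (-(C * G)) ≤ Real.exp (-(D * G)) := by
    apply Real.exp_le_exp.2
    have : D * G ≤ C * G := mul_le_mul_of_nonneg_right (by linarith) hG
    linarith
  rcases Nat.lt_or_ge n (2 * d) with hnd | hnd
  · have h1 : (n : ℝ) ≤ 2 * d := by exact_mod_cast hnd.le
    have h2 : Real.exp (-(C * G)) ≤ 1 := by
      apply Real.exp_le_one_iff.2
      have : 0 ≤ C * G := mul_nonneg (by linarith) hG
      linarith
    calc n * Real.exp (-(C * G)) ≤ n * 1 :=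
          mul_le_mul_of_nonneg_left h2 (Nat.cast_nonneg n)
      _ ≤ 2 * d := by linarith
      _ ≤ C * Real.log 2 := by nlinarith
      _ ≤ C * Real.log (2 * τ) := mul_le_mul_of_nonneg_left hlog0 (by linarith)
  set t := (n - d) / 2 ^ (2 * A + 4) with ht
  have h1 : ((t : ℝ) + 1) * Real.log 2 ≤ Real.log (2 * τ) := by
    have e1 : Real.log ((2 : ℝ) ^ (t + 1)) ≤ Real.log (2 * τ) := by
      apply Real.log_le_log (by positivity)
      rw [pow_succ]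
      linarith
    rw [Real.log_pow] at e1
    push_cast at e1
    exact e1
  have h2 : (n : ℝ) ≤ 2 * ((t + 1) * 2 ^ (2 * A + 4)) := by
    have e1 : n - d < (t + 1) * 2 ^ (2 * A + 4) := by
      have e2 := Nat.div_add_mod (n - d) (2 ^ (2 * A + 4))
      have e3 := Nat.mod_lt (n - d) (show 0 < 2 ^ (2 * A + 4) by positivity)
      rw [← ht] at e2
      nlinarith
    have e2 : n ≤ 2 * ((t + 1) * 2 ^ (2 * A + 4)) := by omega
    exact_mod_cast e2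
  have h3 : (2 : ℝ) ^ (2 * A + 4) ≤ 16 * Real.exp (D * G) := by
    have e1 : (2 : ℝ) ^ (2 * A + 4) = 16 * (2 : ℝ) ^ (2 * A) := by rw [pow_add]; norm_num; ring
    have e2 : (2 : ℝ) ^ (2 * A) = Real.exp ((2 * A : ℕ) * Real.log 2) := by
      rw [Real.exp_nat_mul, Real.exp_log (by norm_num)]
    rw [e1, e2]
    have e3 : ((2 * A : ℕ) : ℝ) * Real.log 2 ≤ D * G := by
      push_cast
      have e4 : (0 : ℝ) ≤ A := Nat.cast_nonneg _
      have e5 : 2 * (A : ℝ) * Real.log 2 ≤ 2 * A := by nlinarith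
      have e6 : 2 * C' * G ≤ D * G := mul_le_mul_of_nonneg_right hDC hG
      linarith
    have := Real.exp_le_exp.2 e3
    linarith
  have h4 : (0 : ℝ) ≤ (t : ℝ) + 1 := by positivity
  have h5 : (n : ℝ) ≤ 2 * ((t + 1) * (16 * Real.exp (D * G))) :=
    h2.trans (mul_le_mul_of_nonneg_left (mul_le_mul_of_nonneg_left h3 h4) (by norm_num))
  have h6 : (n : ℝ) * Real.exp (-(D * G)) ≤ 2 * ((t + 1) * 16) := by
    calc (n : ℝ) * Real.exp (-(D * G))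
        ≤ 2 * ((t + 1) * (16 * Real.exp (D * G))) * Real.exp (-(D * G)) :=
          mul_le_mul_of_nonneg_right h5 (Real.exp_pos _).le
      _ = 2 * ((t + 1) * 16) * (Real.exp (D * G) * Real.exp (-(D * G))) := by ring
      _ = 2 * ((t + 1) * 16) := by rw [← Real.exp_add, add_neg_cancel, Real.exp_zero, mul_one]
  have h7 : 2 * (((t : ℝ) + 1) * 16) ≤ 48 * (((t : ℝ) + 1) * Real.log 2) := by nlinarith
  have h8 : 0 ≤ Real.log (2 * τ) := by linarith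
  have h9 : 48 * Real.log (2 * τ) ≤ C * Real.log (2 * τ) :=
    mul_le_mul_of_nonneg_right (by linarith) h8
  have h10 : (n : ℝ) * Real.exp (-(C * G)) ≤ n * Real.exp (-(D * G)) :=
    mul_le_mul_of_nonneg_left hexp (Nat.cast_nonneg n)
  linarith

/-- **the numbers**: for every number `t` of periods, everything the count needs -/
theorem numbers (k : ℕ) : ∃ C' : ℝ, 0 < C' ∧ ∀ S w w0 : ℕ, 2 ≤ S → 1 ≤ w → w ≤ S → 1 ≤ w0 →
    ∃ (A B A0 B0 m : ℕ) (c : ℝ) (X Y : ℕ → ℝ), 4 ≤ c ∧ 1 ≤ B0 ∧ B0 ≤ A0 ∧ 16 ≤ m ∧ A = m * A0 ∧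
      B = m * B0 ∧ (A : ℝ) ≤ C' * (Real.log S ^ (1 - 1 / ((Nat.fib (2 * k + 4) : ℝ) - 1)) *
        Real.log (2 * w) ^ (1 / ((Nat.fib (2 * k + 4) : ℝ) - 1)) + Real.log w0) ∧
      Grw w0 w S ((2 : ℝ) ^ A) ((2 : ℝ) ^ B) (2 * k + 1) X Y ∧
      X (2 * k + 1) = (2 : ℝ) ^ ((A : ℝ) / 2 - c) ∧ Y (2 * k + 1) = (2 : ℝ) ^ ((B : ℝ) / 2 - c) := by
  have hF3 : 3 ≤ Nat.fib (2 * k + 4) := by
    have h1 : Nat.fib 4 ≤ Nat.fib (2 * k + 4) := Nat.fib_mono (by omega)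
    exact h1
  obtain ⟨C', hC', hpar⟩ := final_params (Nat.fib (2 * k + 4)) hF3
  refine ⟨C', hC', fun S w w0 hS hw hwS hw0 => ?_⟩
  obtain ⟨σ, ω, μ, hσ, hω, hμ, hwω, hSp, hw0p, hfin⟩ := hpar S w w0 hS hw hwS hw0
  obtain ⟨A0, B0, s, c0, τ, hs, hB0, hBA, hA2, h1, h2, h3, h4, h5, h6, h7⟩ :=
    Pool.Helper98.CD.cf_numbers (2 * k + 1) σ (by omega) hσ
  have hL3 : 2 * k + 1 + 3 = 2 * k + 4 := by omega
  rw [hL3] at h6 h7
  obtain ⟨c, hc, hXY⟩ := growth_exists (2 * k + 1) σ ω μ A0 B0 s S w w0 c0 τ (by omega) hσ hω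
    hμ hs hB0 hBA h1 h2 h3 h4 h5 hw hwω _ h7 hSp hw0p
  obtain ⟨hX1, hY1, hN1, hstep⟩ := hXY
  refine ⟨16 * s * ω * μ * A0, 16 * s * ω * μ * B0, A0, B0, 16 * s * ω * μ, c (2 * k + 1), _, _,
    ?_, hB0, hBA, ?_, rfl, rfl, ?_, ⟨hX1, hY1, hN1, fun i h1 h2 => (hstep i h1 h2).1,
      fun i h1 h2 => (hstep i h1 h2).2.1, fun i h1 h2 => (hstep i h1 h2).2.2.1,
      fun i h1 h2 => (hstep i h1 h2).2.2.2⟩, rfl, rfl⟩
  · have e1 := hc (2 * k + 1) (by omega) le_rfl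
    have e2 : (1 : ℝ) ≤ ω := by exact_mod_cast hω
    linarith
  · have := Nat.mul_le_mul (Nat.mul_le_mul hs hω) hμ
    calc 16 = 16 * (1 * 1 * 1) := by norm_num
      _ ≤ 16 * (s * ω * μ) := Nat.mul_le_mul_left _ this
      _ = _ := by ring
  · refine le_trans ?_ hfin
    have e1 : 16 * s * ω * μ * A0 ≤ 64 * ω * μ * (18 * σ) ^ (Nat.fib (2 * k + 4) - 2) := by
      calc 16 * s * ω * μ * A0 = 16 * ω * μ * (s * A0) := by ring
        _ ≤ 16 * ω * μ * (4 * (18 * σ) ^ (Nat.fib (2 * k + 4) - 2)) := Nat.mul_le_mul_left _ h6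
        _ = 64 * ω * μ * (18 * σ) ^ (Nat.fib (2 * k + 4) - 2) := by ring
    exact_mod_cast e1

end Pool.Agent.Helper59.CDT
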