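import Pool.Agent.Helper59.CDT.Count
import Pool.Agent.Helper59.CDT.Inst
import Pool.Agent.Helper59.CDT.Num
import Pool.Agent.CDep.Blocks

/-!
# Constant depth tests for `k`-SAT: the theorem
-/

set_option autoImplicit false

namespace Pool.Agent.Helper59.CDT

open Finset MvPolynomial Pool.CD Pool.CDep Pool.Agent.Helper41.CD Pool.SatDet

/-- if `f` vanishes on every unsatisfiable formula, its monomials contain all clauses violated by
some assignment -/
theorem satP_support {n k : ℕ} {F : Type} [Field F] {f : MvPolynomial (Clause n k) F}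
    (hf : ∀ S : Finset (Clause n k), ¬ SatP n k S → rst S f = 0) :
    ∀ m ∈ f.support, SatP n k m.support := by
  intro m hm
  by_contra hcon
  have h1 := hf m.support hcon
  rw [rst_eq] at h1
  have h2 := congrArg (coeff m) h1
  rw [coeff_sum, coeff_zero] at h2
  rw [Finset.sum_eq_single m] at h2
  · rw [coeff_monomial, if_pos rfl] at h2
    exact (mem_support_iff.1 hm) h2
  · intro m' _ hne
    rw [coeff_monomial, if_neg hne]
  · intro h3
    exact absurd (mem_filter.2 ⟨hm, Finset.Subset.refl _⟩) h3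

/-- some random choice accepts many words -/
theorem exists_many {Ω W : Type} [Fintype Ω] [Fintype W] (pr : Ω → ℝ) (h0 : ∀ ω, 0 ≤ pr ω)
    (h1 : ∑ ω, pr ω = 1) (Q : Ω → W → Prop) [∀ ω, DecidablePred (Q ω)] (δ : ℝ)
    (hQ : ∀ p, δ ≤ ∑ ω, if Q ω p then pr ω else 0) :
    ∃ ω, δ * Fintype.card W ≤ ((univ.filter (Q ω)).card : ℝ) := by
  by_contra hcon
  push Not at hcon
  have h2 : δ * Fintype.card W ≤ ∑ ω, pr ω * ((univ.filter (Q ω)).card : ℝ) := by
    calc δ * Fintype.card W = ∑ _p : W, δ := by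
          rw [sum_const, card_univ, nsmul_eq_mul, mul_comm]
      _ ≤ ∑ p : W, ∑ ω, if Q ω p then pr ω else 0 := sum_le_sum fun p _ => hQ p
      _ = ∑ ω, ∑ p : W, if Q ω p then pr ω else 0 := sum_comm
      _ = ∑ ω, pr ω * ((univ.filter (Q ω)).card : ℝ) := by
          refine sum_congr rfl fun ω _ => ?_
          rw [← sum_filter, sum_const, nsmul_eq_mul, mul_comm]
  have h3 : ∑ ω, pr ω * ((univ.filter (Q ω)).card : ℝ) < ∑ ω, pr ω * (δ * Fintype.card W) := by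
    obtain ⟨ω0, hω0⟩ : ∃ ω, 0 < pr ω := by
      by_contra hc
      push Not at hc
      have : ∑ ω, pr ω ≤ 0 := sum_nonpos fun ω _ => hc ω
      linarith
    refine sum_lt_sum (fun ω _ => mul_le_mul_of_nonneg_left (hcon ω).le (h0 ω))
      ⟨ω0, mem_univ _, mul_lt_mul_of_pos_left (hcon ω0) hω0⟩
  rw [← sum_mul, h1, one_mul] at h3
  linarith

open Classical in
/-- **constant depth tests for `k`-SAT** (`k = d + 1`) -/
theorem cdt (d k : ℕ) (hd : 2 ≤ d) : ∃ C : ℝ, 0 < C ∧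
    ∀ (F : Type) [Field F] (Ω : Type) [Fintype Ω] (n T S w w0 : ℕ) (δ : ℝ) (pr : Ω → ℝ)
      (f : Ω → Fin T → Fin S → MvPolynomial (Clause n (d + 1)) F),
      1 ≤ T → 2 ≤ S → 1 ≤ w → w ≤ S → 1 ≤ w0 → 0 < δ → δ ≤ 1 → (∀ ω, 0 ≤ pr ω) →
      ∑ ω, pr ω = 1 → (∀ ω i j, f ω i j ∈ Cls w0 w S k) →
      (∀ ω, ∀ m ∈ (∑ i, ∏ j, f ω i j).support, ∀ c, m c ≤ 1) →
      (∀ ω, ∀ U : Finset (Clause n (d + 1)), ¬ SatP n (d + 1) U →
        rst U (∑ i, ∏ j, f ω i j) = 0) →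
      (∀ U : Finset (Clause n (d + 1)), (∃! a : Fin n → Bool, ∀ c, c ∉ U → Sats a c) →
        δ ≤ ∑ ω, if rst U (∑ i, ∏ j, f ω i j) ≠ 0 then pr ω else 0) →
      n * Real.exp (-(C * (Real.log S ^ (1 - 1 / ((Nat.fib (2 * k + 4) : ℝ) - 1)) *
        Real.log (2 * w) ^ (1 / ((Nat.fib (2 * k + 4) : ℝ) - 1)) + Real.log w0))) ≤
        C * Real.log (2 * (T / δ)) := by
  obtain ⟨C', hC', hnum⟩ := numbers k
  refine ⟨48 + 4 * C' + 4 * d, by positivity, ?_⟩
  intro F _ Ω _ n T S w w0 δ pr f hT hS hw hwS hw0 hδ hδ1 hpr hpr1 hf hml hzero hacc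
  obtain ⟨A, B, A0, B0, m, c, X, Y, hc, hB0, hBA, hm, hA, hB, hAle, hG, hXL, hYL⟩ :=
    hnum S w w0 hS hw hwS hw0
  have hG0 : 0 ≤ Real.log S ^ (1 - 1 / ((Nat.fib (2 * k + 4) : ℝ) - 1)) *
        Real.log (2 * w) ^ (1 / ((Nat.fib (2 * k + 4) : ℝ) - 1)) + Real.log w0 := by
    have e1 : 0 ≤ Real.log S := Real.log_natCast_nonneg S
    have e2 : (1 : ℝ) ≤ w := by exact_mod_cast hw
    have e3 : 0 ≤ Real.log (2 * w) := Real.log_nonneg (by linarith)
    have e4 : 0 ≤ Real.log w0 := Real.log_natCast_nonneg w0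
    positivity
  have hTr : (1 : ℝ) ≤ T := by exact_mod_cast hT
  have hτ : 1 ≤ (T : ℝ) / δ := by
    rw [le_div_iff₀ hδ]
    linarith
  apply log_final' hC' hG0 hAle hτ
  set t := (n - d) / 2 ^ (2 * A + 4) with ht
  rcases Nat.eq_zero_or_pos t with ht0 | htpos
  · rw [ht0, pow_zero]
    exact hτ
  have hA01 : 1 ≤ A0 := hB0.trans hBA
  have hA16 : 16 ≤ A := by
    rw [hA]
    calc 16 = 16 * 1 := by norm_num
      _ ≤ m * A0 := Nat.mul_le_mul hm hA01
  have hA1 : 1 ≤ A := by omega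
  have hB1 : 1 ≤ B := by
    rw [hB]
    calc 1 = 1 * 1 := by norm_num
      _ ≤ m * B0 := Nat.mul_le_mul (by omega) hB0
  have hBA' : B ≤ A := by
    rw [hA, hB]
    exact Nat.mul_le_mul_left _ hBA
  have hB0A : B0 ≤ A := by
    rw [hA]
    calc B0 ≤ A0 := hBA
      _ = 1 * A0 := by ring
      _ ≤ m * A0 := Nat.mul_le_mul_right _ (by omega)
  set N : ℕ := A * (t * B0) with hN
  have hN' : N = B * (t * A0) := by rw [hN, hA, hB]; ring
  have hNs : N = t * m * A0 * B0 := by rw [hN, hA]; ring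
  have hr : (univ.image (tu A N)).card = t * B0 := card_image_tu hA1
  have hE : (univ.image (tv B N)).card = t * A0 := by
    rw [hN']
    exact card_image_tv hB1
  have hN1 : 1 ≤ N := by
    rw [hN]
    exact Nat.mul_pos hA1 (Nat.mul_pos htpos hB0)
  have hn1 : (2 * N + 1) * 2 ^ (A + 1) + 1 ≤ n - d := by
    rw [hNs]
    refine (size_bound (A := A) (m := m) hA hB0A hA16 htpos).trans ?_
    rw [ht]
    exact Nat.div_mul_le_self _ _
  have hsize : 2 * ((univ.image (tu A N)).card * 2 ^ A + (univ.image (tv B N)).card * 2 ^ B) + d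
      ≤ n := by
    rw [hr, hE]
    have e1 : 2 ^ B ≤ 2 ^ A := Nat.pow_le_pow_right (by norm_num) hBA'
    have e2 : B0 + A0 ≤ 2 * (A0 * B0) := by nlinarith
    have e3 : t * B0 * 2 ^ A + t * A0 * 2 ^ B ≤ N * 2 ^ (A + 1) := by
      calc t * B0 * 2 ^ A + t * A0 * 2 ^ B ≤ t * B0 * 2 ^ A + t * A0 * 2 ^ A :=
            Nat.add_le_add_left (Nat.mul_le_mul_left _ e1) _
        _ = t * (B0 + A0) * 2 ^ A := by ring
        _ ≤ t * (2 * (A0 * B0)) * 2 ^ A := Nat.mul_le_mul_right _ (Nat.mul_le_mul_left _ e2)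
        _ = 1 * (t * A0 * B0) * 2 ^ (A + 1) := by rw [pow_succ]; ring
        _ ≤ m * (t * A0 * B0) * 2 ^ (A + 1) :=
            Nat.mul_le_mul_right _ (Nat.mul_le_mul_right _ (by omega))
        _ = N * 2 ^ (A + 1) := by rw [hNs]; ring
    have e4 : 2 * (N * 2 ^ (A + 1)) ≤ (2 * N + 1) * 2 ^ (A + 1) + 1 := by
      have : (2 * N + 1) * 2 ^ (A + 1) = 2 * (N * 2 ^ (A + 1)) + 2 ^ (A + 1) := by ring
      rw [this, add_assoc]
      exact Nat.le_add_right _ _
    have e5 := (Nat.mul_le_mul_left 2 e3).trans (e4.trans hn1)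
    generalize 2 * (t * B0 * 2 ^ A + t * A0 * 2 ^ B) = z at e5 ⊢
    have e6 : 1 ≤ n - d := by
      refine le_trans ?_ hn1
      omega
    omega
  obtain ⟨G, hGu⟩ := exists_wgSat (h := 2) (tu A N) (tv B N) hd (by norm_num)
    (fun j => card_tu hA1 j) (fun j => card_tv hB1 j) hN1 hsize
  -- a good choice
  obtain ⟨ω, hω⟩ := exists_many pr hpr hpr1
    (fun ω (p : Wo N 2) => rst (G.Z ∪ G.U p ∪ G.V p) (∑ i, ∏ j, f ω i j) ≠ 0) δ
    (fun p => hacc _ (hGu p))
  have hcount := count_words G hw0 hw (h := 2) (by norm_num) (A := A) (B := B)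
    (by push_cast; exact hG) (fun j => card_tu hA1 j) (fun j => card_tv hB1 j) (f ω)
    (hf ω) (hml ω) (satP_support (hzero ω))
    (univ.filter fun p => rst (G.Z ∪ G.U p ∪ G.V p) (∑ i, ∏ j, f ω i j) ≠ 0)
    (fun p hp => (mem_filter.1 hp).2)
  rw [hr, hE, hXL, hYL] at hcount
  have hcard : (Fintype.card (Wo N 2) : ℝ) = 2 ^ N := by
    rw [Fintype.card_fun, Fintype.card_fin, Fintype.card_fin]
    push_cast
    rfl
  rw [hcard] at hω
  have h1 : δ * 2 ^ N ≤ 2 ^ (t * B0 + t * A0) * (T * (4 ^ (t * B0 + t * A0) *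
      ((2 : ℝ) ^ ((A : ℝ) / 2 - c)) ^ (t * B0) * ((2 : ℝ) ^ ((B : ℝ) / 2 - c)) ^ (t * A0))) :=
    hω.trans hcount
  have hfinal : (2 : ℝ) ^ (t * B0 + t * A0) ≤ T / δ := by
    refine count_final' (A := A) (B := B) (N := N) (by positivity) hc rfl hN'.symm ?_
    rw [← mul_le_mul_iff_right₀ hδ]
    refine h1.trans (le_of_eq ?_)
    field_simp
  refine le_trans ?_ hfinal
  apply pow_le_pow_right₀ (by norm_num)
  have : t * 1 ≤ t * B0 := Nat.mul_le_mul_left _ hB0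
  omega

end Pool.Agent.Helper59.CDT
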