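import Pool.Agent.Helper59.SAT.Cl

/-!
# Constant depth tests for `k`-SAT: the gadget

Words `p : Fin N → Fin h`; the digits are divided into blocks in two ways (`lab false` and
`lab true` give the blocks). One-hot variables and ladder variables for every block and every
value of the digits of the block, and dummies.
-/

set_option autoImplicit false

namespace Pool.Agent.Helper59.CDT

open Finset Pool.SatDet

/-! ### clauses over any set of variables -/

section clauses

variable {G : Type} {n k : ℕ}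

theorem vcl_inj {a a' : Fin n → Bool} {T T' : Finset (Fin n)} {hT : T.card = k}
    {hT' : T'.card = k} (h : vcl a T hT = vcl a' T' hT') : T = T' := by
  rw [← supp_vcl a T hT, h, supp_vcl]

theorem viol_vcl (a a' : Fin n → Bool) (T : Finset (Fin n)) (hT : T.card = k) :
    ¬ Sats a (vcl a' T hT) ↔ ∀ i ∈ T, a i = a' i := by
  rw [sats_vcl_iff]
  push Not
  rfl

/-- The clause on the variables `T`, violated by `a`. -/
def gcl (ε : G ≃ Fin n) (a : G → Bool) (T : Finset G) (hT : T.card = k) : Clause n k :=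
  vcl (fun x => a (ε.symm x)) (T.map ε.toEmbedding) (by rw [Finset.card_map]; exact hT)

theorem viol_gcl (ε : G ≃ Fin n) (a : Fin n → Bool) (a' : G → Bool) (T : Finset G)
    (hT : T.card = k) : ¬ Sats a (gcl ε a' T hT) ↔ ∀ x ∈ T, a (ε x) = a' x := by
  rw [gcl, viol_vcl]
  constructor
  · intro h x hx
    have := h (ε x) (Finset.mem_map_of_mem _ hx)
    rwa [Equiv.symm_apply_apply] at this
  · intro h x hx
    obtain ⟨y, hy, rfl⟩ := Finset.mem_map.1 hx
    have := h y hy
    simpa using this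

theorem gcl_inj {ε : G ≃ Fin n} {a a' : G → Bool} {T T' : Finset G} {hT : T.card = k}
    {hT' : T'.card = k} (h : gcl ε a T hT = gcl ε a' T' hT') : T = T' :=
  Finset.map_injective _ (vcl_inj h)

end clauses

/-! ### the gadget -/

section gadget

variable {N h R n d : ℕ} (lab : Bool → Fin N → ℕ)

/-- the blocks of the two partitions -/
abbrev Bl : Type := Σ s : Bool, {j : ℕ // j ∈ univ.image (lab s)}

/-- the values of the digits of a block -/
abbrev Lr (h : ℕ) (b : Bl lab) : Type := {i : Fin N // lab b.1 i = b.2.1} → Fin h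

/-- all letters -/
abbrev Lt (h : ℕ) : Type := Σ b : Bl lab, Lr lab h b

/-- the Boolean variables -/
abbrev Gw (h R : ℕ) : Type := (Lt lab h × Bool) ⊕ Fin R

noncomputable instance : DecidableEq (Gw lab h R) := Classical.decEq _

/-- the enumeration of the letters of a block -/
noncomputable def idx (b : Bl lab) : Lr lab h b ≃ Fin (Fintype.card (Lr lab h b)) :=
  Fintype.equivFin _

/-- the letter of a word -/
def res (p : Fin N → Fin h) (b : Bl lab) : Lr lab h b := fun i => p i.1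

/-- the assignment of a word -/
noncomputable def val (p : Fin N → Fin h) : Gw lab h R → Bool
  | Sum.inl (l, false) => decide (l.2 = res lab p l.1)
  | Sum.inl (l, true) => decide (idx lab l.1 l.2 ≤ idx lab l.1 (res lab p l.1))
  | Sum.inr _ => false

/-- the pattern of the letter clauses -/
def pat : Gw lab h R → Bool
  | Sum.inl _ => true
  | Sum.inr _ => false

/-- the dummies -/
def zemb : Fin R ↪ Gw lab h R := ⟨Sum.inr, Sum.inr_injective⟩

/-- the variables of the letter clauses -/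
noncomputable def TL (l : Lt lab h) (P : Finset (Fin R)) : Finset (Gw lab h R) :=
  insert (Sum.inl (l, false)) (P.map (zemb lab))

theorem card_TL (l : Lt lab h) (P : Finset (Fin R)) : (TL lab l P).card = P.card + 1 := by
  rw [TL, Finset.card_insert_of_notMem, Finset.card_map]
  simp [zemb]

variable {lab}

/-- the letter clauses -/
noncomputable def Lcl (ε : Gw lab h R ≃ Fin n) {P0 : Finset (Fin R)} (hP0 : P0.card = d)
    (l : Lt lab h) : Clause n (d + 1) :=
  gcl ε (pat lab) (TL lab l P0) (by rw [card_TL, hP0])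

/-- the assignment of a word, on `Fin n` -/
noncomputable def ac (ε : Gw lab h R ≃ Fin n) (p : Fin N → Fin h) : Fin n → Bool :=
  fun x => val lab p (ε.symm x)

theorem ac_apply (ε : Gw lab h R ≃ Fin n) (p : Fin N → Fin h) (x : Gw lab h R) :
    ac ε p (ε x) = val lab p x := by
  simp [ac]

theorem Lcl_inj (ε : Gw lab h R ≃ Fin n) {P0 : Finset (Fin R)} (hP0 : P0.card = d) :
    Function.Injective (Lcl ε hP0) := by
  intro l l' hll
  have h1 := gcl_inj hll
  have h2 : (Sum.inl (l, false) : Gw lab h R) ∈ TL lab l' P0 := by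
    rw [← h1]
    exact Finset.mem_insert_self _ _
  rw [TL, Finset.mem_insert, Finset.mem_map] at h2
  rcases h2 with h2 | ⟨j, -, h2⟩
  · exact (Prod.ext_iff.1 (Sum.inl_injective h2)).1
  · cases h2

theorem viol_Lcl (ε : Gw lab h R ≃ Fin n) {P0 : Finset (Fin R)} (hP0 : P0.card = d)
    (a : Fin n → Bool) (hz : ∀ j, a (ε (Sum.inr j)) = false) (l : Lt lab h) :
    ¬ Sats a (Lcl ε hP0 l) ↔ a (ε (Sum.inl (l, false))) = true := by
  rw [Lcl, viol_gcl]
  constructor
  · intro H
    exact H _ (Finset.mem_insert_self _ _)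
  · intro H x hx
    rw [TL, Finset.mem_insert, Finset.mem_map] at hx
    rcases hx with rfl | ⟨j, -, rfl⟩
    · exact H
    · exact hz j

theorem viol_ac_Lcl (ε : Gw lab h R ≃ Fin n) {P0 : Finset (Fin R)} (hP0 : P0.card = d)
    (p : Fin N → Fin h) (l : Lt lab h) :
    ¬ Sats (ac ε p) (Lcl ε hP0 l) ↔ l.2 = res lab p l.1 := by
  rw [viol_Lcl ε hP0 (ac ε p) (fun j => by rw [ac_apply]; rfl), ac_apply]
  simp [val]

/-- the letter clauses of the word `p` for the partition `s` -/
noncomputable def Us (ε : Gw lab h R ≃ Fin n) {P0 : Finset (Fin R)} (hP0 : P0.card = d)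
    (s : Bool) (p : Fin N → Fin h) : Finset (Clause n (d + 1)) :=
  (univ : Finset {j : ℕ // j ∈ univ.image (lab s)}).image
    fun j => Lcl ε hP0 ⟨⟨s, j⟩, res lab p ⟨s, j⟩⟩

theorem card_Us (ε : Gw lab h R ≃ Fin n) {P0 : Finset (Fin R)} (hP0 : P0.card = d)
    (s : Bool) (p : Fin N → Fin h) : (Us ε hP0 s p).card = (univ.image (lab s)).card := by
  rw [Us, card_image_of_injective, card_univ, Fintype.card_coe]
  intro j j' hj
  have h1 := Lcl_inj ε hP0 hj
  have h2 := (Sigma.mk.inj_iff.1 h1).1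
  exact eq_of_heq (Sigma.mk.inj_iff.1 h2).2

theorem mem_Us {ε : Gw lab h R ≃ Fin n} {P0 : Finset (Fin R)} {hP0 : P0.card = d}
    {s : Bool} {p : Fin N → Fin h} {l : Lt lab h} :
    Lcl ε hP0 l ∈ Us ε hP0 s p ↔ l.1.1 = s ∧ l.2 = res lab p l.1 := by
  rw [Us, Finset.mem_image]
  constructor
  · rintro ⟨j, -, hj⟩
    have h1 := Lcl_inj ε hP0 hj
    subst h1
    exact ⟨rfl, rfl⟩
  · obtain ⟨⟨s', j⟩, x⟩ := l
    rintro ⟨rfl, h2⟩
    simp only at h2
    exact ⟨j, mem_univ _, by rw [h2]⟩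

/-- the free clauses -/
noncomputable def Zs (ε : Gw lab h R ≃ Fin n) {P0 : Finset (Fin R)} (hP0 : P0.card = d) :
    Finset (Clause n (d + 1)) :=
  open Classical in univ.filter fun C => (∃ p, ¬ Sats (ac ε p) C) ∧ ∀ l, Lcl ε hP0 l ≠ C

theorem mem_Zs {ε : Gw lab h R ≃ Fin n} {P0 : Finset (Fin R)} {hP0 : P0.card = d}
    {C : Clause n (d + 1)} :
    C ∈ Zs ε hP0 ↔ (∃ p, ¬ Sats (ac ε p) C) ∧ ∀ l, Lcl ε hP0 l ≠ C := by
  simp [Zs]

theorem eq_Lcl_of_mem_Us {ε : Gw lab h R ≃ Fin n} {P0 : Finset (Fin R)} {hP0 : P0.card = d}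
    {s : Bool} {p : Fin N → Fin h} {C : Clause n (d + 1)} (hC : C ∈ Us ε hP0 s p) :
    ∃ j, C = Lcl ε hP0 ⟨⟨s, j⟩, res lab p ⟨s, j⟩⟩ := by
  rw [Us, Finset.mem_image] at hC
  obtain ⟨j, -, hj⟩ := hC
  exact ⟨j, hj.symm⟩

/-- Local consistency. -/
theorem loc (ε : Gw lab h R ≃ Fin n) {P0 : Finset (Fin R)} (hP0 : P0.card = d)
    (hk : d + 1 ≤ Fintype.card (Gw lab h R)) (pp : Bool → Fin N → Fin h)
    (S : Finset (Clause n (d + 1)))
    (hS : ∀ C ∈ S, C ∈ Zs ε hP0 ∨ ∃ s, C ∈ Us ε hP0 s (pp s))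
    (a : Fin n → Bool) (ha : ∀ C, ¬ Sats a C → C ∈ S) (T : Finset (Gw lab h R))
    (hT : T.card ≤ d + 1) : ∃ p : Fin N → Fin h, ∀ x ∈ T, a (ε x) = val lab p x := by
  obtain ⟨T', hTT', hT'⟩ := Finset.exists_superset_card_eq hT hk
  have h1 : gcl ε (fun x => a (ε x)) T' hT' ∈ S := by
    apply ha
    rw [viol_gcl]
    intro x _
    rfl
  have h2 : ∃ p, ¬ Sats (ac ε p) (gcl ε (fun x => a (ε x)) T' hT') := by
    rcases hS _ h1 with h | ⟨s, h⟩
    · exact (mem_Zs.1 h).1
    · obtain ⟨j, hj⟩ := eq_Lcl_of_mem_Us h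
      refine ⟨pp s, ?_⟩
      rw [hj, viol_ac_Lcl]
  obtain ⟨p, hp⟩ := h2
  refine ⟨p, fun x hx => ?_⟩
  rw [viol_gcl] at hp
  have := hp x (hTT' hx)
  rw [ac_apply] at this
  exact this.symm

/-- the satisfying assignment of the formula given by `pp`: it exists only if both words are the
same, and it violates all letter clauses -/
theorem sat_words (ε : Gw lab h R ≃ Fin n) {P0 : Finset (Fin R)} (hP0 : P0.card = d)
    (hd : 2 ≤ d) (hh : 1 ≤ h) (hk : d + 1 ≤ Fintype.card (Gw lab h R))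
    (pp : Bool → Fin N → Fin h) (S : Finset (Clause n (d + 1)))
    (hS : ∀ C ∈ S, C ∈ Zs ε hP0 ∨ ∃ s, C ∈ Us ε hP0 s (pp s))
    (a : Fin n → Bool) (ha : ∀ C, ¬ Sats a C → C ∈ S) :
    pp true = pp false ∧ a = ac ε (pp false) ∧ ∀ s, Us ε hP0 s (pp s) ⊆ S := by
  have hloc := loc ε hP0 hk pp S hS a ha
  have hloc3 : ∀ x y z : Gw lab h R, ∃ p : Fin N → Fin h,
      a (ε x) = val lab p x ∧ a (ε y) = val lab p y ∧ a (ε z) = val lab p z := by
    intro x y z
    obtain ⟨c', hc'⟩ := hloc {x, y, z} (Finset.card_le_three.trans (by omega))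
    exact ⟨c', hc' x (by simp), hc' y (by simp), hc' z (by simp)⟩
  -- the dummies
  have hz : ∀ j, a (ε (Sum.inr j)) = false := by
    intro j
    obtain ⟨c', h1, -⟩ := hloc3 (Sum.inr j) (Sum.inr j) (Sum.inr j)
    rw [h1]
    rfl
  -- the letters
  have hlet : ∀ l : Lt lab h, a (ε (Sum.inl (l, false))) = true →
      l.2 = res lab (pp l.1.1) l.1 ∧ Lcl ε hP0 l ∈ S := by
    intro l hl
    have h1 : Lcl ε hP0 l ∈ S := ha _ ((viol_Lcl ε hP0 a hz l).2 hl)
    refine ⟨?_, h1⟩
    rcases hS _ h1 with h2 | ⟨s, h2⟩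
    · exact absurd rfl ((mem_Zs.1 h2).2 l)
    · obtain ⟨h3, h4⟩ := mem_Us.1 h2
      rw [h3]
      exact h4
  -- the ladder
  have hex : ∀ b : Bl lab, ∃ x : Lr lab h b, a (ε (Sum.inl (⟨b, x⟩, false))) = true := by
    intro b
    by_contra hcon
    push Not at hcon
    have hu : ∀ x : Lr lab h b, a (ε (Sum.inl (⟨b, x⟩, false))) = false := by
      intro x
      simpa using hcon x
    have hne : Nonempty (Lr lab h b) := ⟨fun _ => ⟨0, hh⟩⟩
    have hpos : 0 < Fintype.card (Lr lab h b) := Fintype.card_pos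
    have key : ∀ (j : ℕ) (hj : j < Fintype.card (Lr lab h b)),
        a (ε (Sum.inl (⟨b, (idx lab b).symm ⟨j, hj⟩⟩, true))) = true := by
      intro j
      induction j with
      | zero =>
        intro hj
        obtain ⟨c', h1, -⟩ := hloc3 (Sum.inl (⟨b, (idx lab b).symm ⟨0, hj⟩⟩, true))
          (Sum.inl (⟨b, (idx lab b).symm ⟨0, hj⟩⟩, true))
          (Sum.inl (⟨b, (idx lab b).symm ⟨0, hj⟩⟩, true))
        rw [h1]
        simp only [val, decide_eq_true_eq, Equiv.apply_symm_apply]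
        exact Nat.zero_le _
      | succ j ih =>
        intro hj
        obtain ⟨c', h1, h2, h3⟩ := hloc3
          (Sum.inl (⟨b, (idx lab b).symm ⟨j, by omega⟩⟩, true))
          (Sum.inl (⟨b, (idx lab b).symm ⟨j, by omega⟩⟩, false))
          (Sum.inl (⟨b, (idx lab b).symm ⟨j + 1, hj⟩⟩, true))
        rw [ih] at h1
        rw [hu] at h2
        simp only [val, Equiv.apply_symm_apply] at h1 h2 h3
        have h4 : (⟨j, by omega⟩ : Fin _) ≤ idx lab b (res lab c' b) := by simpa using h1.symm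
        have h5 : (idx lab b).symm ⟨j, by omega⟩ ≠ res lab c' b := by simpa using h2.symm
        have h6 : (⟨j, by omega⟩ : Fin _) ≠ idx lab b (res lab c' b) := by
          intro h7
          apply h5
          rw [h7, Equiv.symm_apply_apply]
        rw [h3, decide_eq_true_eq]
        have h7 := lt_of_le_of_ne h4 h6
        exact h7
    obtain ⟨c', h1, h2, -⟩ := hloc3
      (Sum.inl (⟨b, (idx lab b).symm ⟨Fintype.card (Lr lab h b) - 1, by omega⟩⟩, true))
      (Sum.inl (⟨b, (idx lab b).symm ⟨Fintype.card (Lr lab h b) - 1, by omega⟩⟩, false))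
      (Sum.inl (⟨b, (idx lab b).symm ⟨Fintype.card (Lr lab h b) - 1, by omega⟩⟩, false))
    rw [key] at h1
    rw [hu] at h2
    simp only [val, Equiv.apply_symm_apply] at h1 h2
    have h4 : (⟨Fintype.card (Lr lab h b) - 1, by omega⟩ : Fin _) ≤
        idx lab b (res lab c' b) := by simpa using h1.symm
    have h5 : (idx lab b).symm ⟨Fintype.card (Lr lab h b) - 1, by omega⟩ ≠ res lab c' b := by
      simpa using h2.symm
    apply h5
    rw [Equiv.symm_apply_eq]
    apply Fin.ext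
    have h6 := (idx lab b (res lab c' b)).2
    have h7 : Fintype.card (Lr lab h b) - 1 ≤ (idx lab b (res lab c' b) : ℕ) := h4
    simp only
    omega
  have hall : ∀ b : Bl lab, a (ε (Sum.inl (⟨b, res lab (pp b.1) b⟩, false))) = true ∧
      Lcl ε hP0 ⟨b, res lab (pp b.1) b⟩ ∈ S := by
    intro b
    obtain ⟨x, hx⟩ := hex b
    obtain ⟨h1, h2⟩ := hlet ⟨b, x⟩ hx
    simp only at h1
    rw [← h1]
    exact ⟨hx, h2⟩
  have hpp : pp true = pp false := by
    funext i
    obtain ⟨q, h1, h2, -⟩ := hloc3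
      (Sum.inl (⟨⟨true, ⟨lab true i, mem_image_of_mem _ (mem_univ _)⟩⟩,
        res lab (pp true) ⟨true, ⟨lab true i, mem_image_of_mem _ (mem_univ _)⟩⟩⟩, false))
      (Sum.inl (⟨⟨false, ⟨lab false i, mem_image_of_mem _ (mem_univ _)⟩⟩,
        res lab (pp false) ⟨false, ⟨lab false i, mem_image_of_mem _ (mem_univ _)⟩⟩⟩, false))
      (Sum.inl (⟨⟨false, ⟨lab false i, mem_image_of_mem _ (mem_univ _)⟩⟩,
        res lab (pp false) ⟨false, ⟨lab false i, mem_image_of_mem _ (mem_univ _)⟩⟩⟩, false))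
    rw [(hall ⟨true, ⟨lab true i, mem_image_of_mem _ (mem_univ _)⟩⟩).1] at h1
    rw [(hall ⟨false, ⟨lab false i, mem_image_of_mem _ (mem_univ _)⟩⟩).1] at h2
    simp only [val] at h1 h2
    have h3 := of_decide_eq_true h1.symm
    have h4 := of_decide_eq_true h2.symm
    have h5 := congrFun h3 ⟨i, rfl⟩
    have h6 := congrFun h4 ⟨i, rfl⟩
    simp only [res] at h5 h6
    rw [h5, h6]
  refine ⟨hpp, ?_, ?_⟩
  · have hpp' : ∀ s, pp s = pp false := by
      intro s
      cases s
      · rfl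
      · exact hpp
    funext x
    obtain ⟨y, rfl⟩ := ε.surjective x
    rw [ac_apply]
    rcases y with ⟨⟨b, x⟩, s⟩ | j
    · cases s
      · simp only [val]
        by_cases hx : x = res lab (pp false) b
        · rw [decide_eq_true hx, hx, ← hpp' b.1]
          exact (hall b).1
        · rw [decide_eq_false hx]
          by_contra hne
          rw [Bool.not_eq_false] at hne
          apply hx
          have := (hlet ⟨b, x⟩ hne).1
          simp only at this
          rw [this, hpp' b.1]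
      · obtain ⟨q, h1, h2, -⟩ := hloc3 (Sum.inl (⟨b, res lab (pp b.1) b⟩, false))
          (Sum.inl (⟨b, x⟩, true)) (Sum.inl (⟨b, x⟩, true))
        rw [(hall b).1] at h1
        simp only [val] at h1 h2 ⊢
        have h3 := of_decide_eq_true h1.symm
        rw [h2, ← h3, hpp' b.1]
    · rw [hz]
      rfl
  · intro s C hC
    obtain ⟨j, rfl⟩ := eq_Lcl_of_mem_Us hC
    exact (hall ⟨s, j⟩).2

/-- the assignment of a word violates only free clauses and its letter clauses -/
theorem viol_ac (ε : Gw lab h R ≃ Fin n) {P0 : Finset (Fin R)} (hP0 : P0.card = d)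
    (p : Fin N → Fin h) (C : Clause n (d + 1)) (hC : ¬ Sats (ac ε p) C) :
    C ∈ Zs ε hP0 ∨ ∃ s, C ∈ Us ε hP0 s p := by
  by_cases h1 : ∃ l, Lcl ε hP0 l = C
  · obtain ⟨l, rfl⟩ := h1
    rw [viol_ac_Lcl] at hC
    exact Or.inr ⟨l.1.1, mem_Us.2 ⟨rfl, hC⟩⟩
  · push Not at h1
    exact Or.inl (mem_Zs.2 ⟨⟨p, hC⟩, h1⟩)

theorem disj_Z (ε : Gw lab h R ≃ Fin n) {P0 : Finset (Fin R)} (hP0 : P0.card = d)
    (s : Bool) (p : Fin N → Fin h) : Disjoint (Zs ε hP0) (Us ε hP0 s p) := by
  rw [Finset.disjoint_left]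
  intro C h1 h2
  obtain ⟨j, rfl⟩ := eq_Lcl_of_mem_Us h2
  exact (mem_Zs.1 h1).2 _ rfl

theorem disj_UV (ε : Gw lab h R ≃ Fin n) {P0 : Finset (Fin R)} (hP0 : P0.card = d)
    (p p' : Fin N → Fin h) : Disjoint (Us ε hP0 false p) (Us ε hP0 true p') := by
  rw [Finset.disjoint_left]
  intro C h1 h2
  obtain ⟨j, rfl⟩ := eq_Lcl_of_mem_Us h1
  have := (mem_Us.1 h2).1
  simp at this

/-- a letter clause depends only on the digits of its block -/
theorem Us_local (ε : Gw lab h R ≃ Fin n) {P0 : Finset (Fin R)} (hP0 : P0.card = d)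
    (s : Bool) (C : Clause n (d + 1)) : ∃ J : Finset ℕ, J ⊆ univ.image (lab s) ∧ J.card ≤ 1 ∧
      ∀ p p' : Fin N → Fin h, (∀ i, lab s i ∈ J → p i = p' i) →
        (C ∈ Us ε hP0 s p ↔ C ∈ Us ε hP0 s p') := by
  by_cases h1 : ∃ l, l.1.1 = s ∧ Lcl ε hP0 l = C
  · obtain ⟨⟨⟨s', j⟩, x⟩, hs, rfl⟩ := h1
    simp only at hs
    subst hs
    refine ⟨{j.1}, by simpa using j.2, by simp, fun p p' hpp => ?_⟩
    rw [mem_Us, mem_Us]
    have : res lab p ⟨s', j⟩ = res lab p' ⟨s', j⟩ := by
      funext i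
      exact hpp i.1 (by rw [mem_singleton]; exact i.2)
    simp only [this]
  · refine ⟨∅, by simp, by simp, fun p p' _ => ?_⟩
    have : ∀ q, C ∉ Us ε hP0 s q := by
      intro q hq
      obtain ⟨j, rfl⟩ := eq_Lcl_of_mem_Us hq
      exact h1 ⟨_, rfl, rfl⟩
    exact ⟨fun h => absurd h (this p), fun h => absurd h (this p')⟩

/-- the number of letters -/
theorem card_Lt_le (A B : ℕ) (hh : 1 ≤ h)
    (hA : ∀ j, (univ.filter fun i => lab false i = j).card ≤ A)
    (hB : ∀ j, (univ.filter fun i => lab true i = j).card ≤ B) :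
    Fintype.card (Lt lab h) ≤ (univ.image (lab false)).card * h ^ A +
      (univ.image (lab true)).card * h ^ B := by
  have h1 : ∀ b : Bl lab, Fintype.card (Lr lab h b) =
      h ^ (univ.filter fun i => lab b.1 i = b.2.1).card := by
    intro b
    rw [Fintype.card_fun, Fintype.card_fin, Fintype.card_subtype]
  rw [Fintype.card_sigma]
  rw [Fintype.sum_sigma]
  rw [Fintype.sum_bool, add_comm]
  apply Nat.add_le_add
  · calc ∑ j : {j : ℕ // j ∈ univ.image (lab false)}, Fintype.card (Lr lab h ⟨false, j⟩)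
        ≤ ∑ j : {j : ℕ // j ∈ univ.image (lab false)}, h ^ A := by
          refine sum_le_sum fun j _ => ?_
          rw [h1]
          exact Nat.pow_le_pow_right hh (hA _)
      _ = _ := by rw [sum_const, smul_eq_mul, card_univ, Fintype.card_coe]
  · calc ∑ j : {j : ℕ // j ∈ univ.image (lab true)}, Fintype.card (Lr lab h ⟨true, j⟩)
        ≤ ∑ j : {j : ℕ // j ∈ univ.image (lab true)}, h ^ B := by
          refine sum_le_sum fun j _ => ?_
          rw [h1]
          exact Nat.pow_le_pow_right hh (hB _)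
      _ = _ := by rw [sum_const, smul_eq_mul, card_univ, Fintype.card_coe]

end gadget

end Pool.Agent.Helper59.CDT
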